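import Mathlib

set_option autoImplicit false

/-!
# Orthogonal pairs of `h`-homogeneous latin squares exist for every `h ≥ 0`

Let `cnt L r c` be the number of pairs `(r', c')` with `L r c = L r' c'` and `L r c' = L r' c`; it is `h + 1` when the
cell `(r, c)` is in exactly `h` intercalates, and it is multiplicative for direct products. So it is enough to find
orthogonal pairs with `cnt = 2` (the quaternion group) and with `cnt = m` for all odd `m ≥ 3`. For these take the
squares `((x, i), (y, j)) ↦ (x + c μ i y + φ j, i + T j)` on `ZMod k × (ZMod 2)²`, where `μ` takes the values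
`1, -1, w, -w`.
-/

namespace Pool.Agent.Results.MP_510a26_co.AllHomogeneities

/-- `L` is a latin square of order `n` on the symbols `Fin n`. -/
def IsLatin {n : ℕ} (L : Fin n → Fin n → Fin n) : Prop :=
  (∀ r, Function.Bijective (L r)) ∧ ∀ c, Function.Bijective fun r => L r c

/-- `L` and `M` are orthogonal: the `n²` pairs `(L i j, M i j)` are pairwise distinct. -/
def IsOrthogonal {n : ℕ} (L M : Fin n → Fin n → Fin n) : Prop :=
  Function.Injective fun p : Fin n × Fin n => (L p.1 p.2, M p.1 p.2)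

/-- The intercalates of `L` through the cell `(r, c)`, each given by its opposite cell `(r', c')`. -/
def intercalatesAt {n : ℕ} (L : Fin n → Fin n → Fin n) (r c : Fin n) : Finset (Fin n × Fin n) :=
  Finset.univ.filter fun q => q.1 ≠ r ∧ q.2 ≠ c ∧ L r c = L q.1 q.2 ∧ L r q.2 = L q.1 c

/-- `L` is `h`-homogeneous: every cell is in exactly `h` intercalates. -/
def IsHomogeneous {n : ℕ} (h : ℕ) (L : Fin n → Fin n → Fin n) : Prop :=
  ∀ r c, (intercalatesAt L r c).card = h

/-- The set `H` of the problem: all `h` for which there are an order `n ≥ 1` and two orthogonal latin squares of order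
`n` which are both `h`-homogeneous. -/
def H : Set ℕ :=
  {h | ∃ n : ℕ, 1 ≤ n ∧ ∃ L M : Fin n → Fin n → Fin n, IsLatin L ∧ IsLatin M ∧ IsOrthogonal L M ∧
    IsHomogeneous h L ∧ IsHomogeneous h M}

/-! ### Squares on arbitrary finite sets -/

section general

variable {α : Type} [Fintype α] [DecidableEq α]

/-- The pairs `(r', c')` with `L r c = L r' c'` and `L r c' = L r' c`, including `(r, c)` itself. -/
def cset (L : α → α → α) (r c : α) : Finset (α × α) :=
  Finset.univ.filter fun q => L r c = L q.1 q.2 ∧ L r q.2 = L q.1 c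

/-- An orthogonal pair of latin squares on `α` in which all cells have count `k`. -/
def Good (α : Type) [Fintype α] [DecidableEq α] (k : ℕ) : Prop :=
  ∃ L M : α → α → α,
    ((∀ r, Function.Injective (L r)) ∧ ∀ c, Function.Injective fun r => L r c) ∧
    ((∀ r, Function.Injective (M r)) ∧ ∀ c, Function.Injective fun r => M r c) ∧
    (Function.Injective fun p : α × α => (L p.1 p.2, M p.1 p.2)) ∧
    (∀ r c, (cset L r c).card = k) ∧ ∀ r c, (cset M r c).card = k

theorem mem_cset (L : α → α → α) (r c : α) (q : α × α) :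
    q ∈ cset L r c ↔ L r c = L q.1 q.2 ∧ L r q.2 = L q.1 c := by
  unfold cset
  rw [Finset.mem_filter]
  simp

end general

theorem homog_of_cset {n k : ℕ} (L : Fin n → Fin n → Fin n) (h1 : ∀ r, Function.Injective (L r))
    (h2 : ∀ c, Function.Injective fun r => L r c) (hk : ∀ r c, (cset L r c).card = k + 1) :
    IsHomogeneous k L := by
  intro r c
  have h3 : intercalatesAt L r c = (cset L r c).erase (r, c) := by
    ext ⟨r', c'⟩
    rw [Finset.mem_erase, mem_cset]
    unfold intercalatesAt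
    rw [Finset.mem_filter]
    simp only [Finset.mem_univ, true_and, Ne, Prod.mk.injEq]
    constructor
    · rintro ⟨a, b, c1, d⟩
      exact ⟨fun h => a h.1, c1, d⟩
    · rintro ⟨a, b, c1⟩
      refine ⟨fun h => ?_, fun h => ?_, b, c1⟩
      · subst h
        exact a ⟨rfl, (h1 _ b).symm⟩
      · subst h
        exact a ⟨(h2 c' b).symm, rfl⟩
  rw [h3, Finset.card_erase_of_mem, hk]
  · rfl
  · rw [mem_cset]
    exact ⟨rfl, rfl⟩

theorem cset_transport {α : Type} [Fintype α] [DecidableEq α] {n : ℕ} (e : α ≃ Fin n) (L : α → α → α)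
    (r c : Fin n) :
    (cset (fun a b : Fin n => e (L (e.symm a) (e.symm b))) r c).card = (cset L (e.symm r) (e.symm c)).card := by
  apply Finset.card_bij' (fun q _ => (e.symm q.1, e.symm q.2)) (fun q _ => (e q.1, e q.2))
  · rintro ⟨a, b⟩ hq
    rw [mem_cset] at hq ⊢
    exact ⟨e.injective hq.1, e.injective hq.2⟩
  · rintro ⟨a, b⟩ hq
    rw [mem_cset] at hq ⊢
    dsimp only at hq ⊢
    simp only [Equiv.symm_apply_apply]
    rw [hq.1, hq.2]
    exact ⟨rfl, rfl⟩
  · rintro ⟨a, b⟩ _
    simp
  · rintro ⟨a, b⟩ _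
    simp

theorem mem_H_of_good {α : Type} [Fintype α] [DecidableEq α] [Nonempty α] {h : ℕ} (hg : Good α (h + 1)) :
    h ∈ H := by
  obtain ⟨L, M, ⟨a1, a2⟩, ⟨b1, b2⟩, ho, c1, c2⟩ := hg
  let e : α ≃ Fin (Fintype.card α) := Fintype.equivFin α
  have key : ∀ (K : α → α → α), (∀ r, Function.Injective (K r)) → (∀ c, Function.Injective fun r => K r c) →
      (∀ r, Function.Injective ((fun a b : Fin (Fintype.card α) => e (K (e.symm a) (e.symm b))) r)) ∧
      ∀ c, Function.Injective fun r => (fun a b : Fin (Fintype.card α) => e (K (e.symm a) (e.symm b))) r c := by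
    intro K k1 k2
    refine ⟨fun r x y hxy => ?_, fun c x y hxy => ?_⟩
    · exact e.symm.injective (k1 _ (e.injective hxy))
    · exact e.symm.injective (k2 _ (e.injective hxy))
  obtain ⟨d1, d2⟩ := key L a1 a2
  obtain ⟨f1, f2⟩ := key M b1 b2
  refine ⟨Fintype.card α, Fintype.card_pos, fun a b => e (L (e.symm a) (e.symm b)),
    fun a b => e (M (e.symm a) (e.symm b)), ⟨fun r => Finite.injective_iff_bijective.1 (d1 r),
    fun c => Finite.injective_iff_bijective.1 (d2 c)⟩, ⟨fun r => Finite.injective_iff_bijective.1 (f1 r),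
    fun c => Finite.injective_iff_bijective.1 (f2 c)⟩, ?_, ?_, ?_⟩
  · rintro ⟨x, y⟩ ⟨x', y'⟩ hxy
    simp only [Prod.mk.injEq, EmbeddingLike.apply_eq_iff_eq] at hxy
    have h3 := @ho (e.symm x, e.symm y) (e.symm x', e.symm y') (Prod.ext hxy.1 hxy.2)
    simp only [Prod.mk.injEq, EmbeddingLike.apply_eq_iff_eq] at h3
    exact Prod.ext h3.1 h3.2
  · exact homog_of_cset _ d1 d2 fun r c => by rw [cset_transport, c1]
  · exact homog_of_cset _ f1 f2 fun r c => by rw [cset_transport, c2]

/-! ### Products -/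

section prod

variable {α β : Type} [Fintype α] [DecidableEq α] [Fintype β] [DecidableEq β]

/-- The direct product of two squares. -/
def prodSq (L : α → α → α) (K : β → β → β) : α × β → α × β → α × β :=
  fun p q => (L p.1 q.1, K p.2 q.2)

theorem cset_prod (L : α → α → α) (K : β → β → β) (r c : α × β) :
    (cset (prodSq L K) r c).card = (cset L r.1 c.1).card * (cset K r.2 c.2).card := by
  rw [← Finset.card_product]
  refine Finset.card_bij' (fun q _ => ((q.1.1, q.2.1), (q.1.2, q.2.2)))
    (fun q _ => ((q.1.1, q.2.1), (q.1.2, q.2.2))) ?_ ?_ ?_ ?_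
  · rintro ⟨⟨a, b⟩, ⟨a', b'⟩⟩ hq
    rw [mem_cset] at hq
    unfold prodSq at hq
    simp only [Prod.mk.injEq] at hq
    rw [Finset.mem_product, mem_cset, mem_cset]
    exact ⟨⟨hq.1.1, hq.2.1⟩, ⟨hq.1.2, hq.2.2⟩⟩
  · rintro ⟨⟨a, b⟩, ⟨a', b'⟩⟩ hq
    rw [Finset.mem_product, mem_cset, mem_cset] at hq
    rw [mem_cset]
    unfold prodSq
    simp only [Prod.mk.injEq]
    exact ⟨⟨hq.1.1, hq.2.1⟩, ⟨hq.1.2, hq.2.2⟩⟩
  · rintro ⟨⟨a, b⟩, ⟨a', b'⟩⟩ _
    rfl
  · rintro ⟨⟨a, b⟩, ⟨a', b'⟩⟩ _
    rfl

theorem good_prod {k l : ℕ} (h1 : Good α k) (h2 : Good β l) : Good (α × β) (k * l) := by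
  obtain ⟨L, M, ⟨a1, a2⟩, ⟨b1, b2⟩, ho, c1, c2⟩ := h1
  obtain ⟨L', M', ⟨a1', a2'⟩, ⟨b1', b2'⟩, ho', c1', c2'⟩ := h2
  refine ⟨prodSq L L', prodSq M M', ⟨?_, ?_⟩, ⟨?_, ?_⟩, ?_, ?_, ?_⟩
  · rintro r ⟨x, y⟩ ⟨x', y'⟩ h
    have h3 := Prod.mk.inj h
    exact Prod.ext (a1 _ h3.1) (a1' _ h3.2)
  · rintro c ⟨x, y⟩ ⟨x', y'⟩ h
    have h3 := Prod.mk.inj h
    exact Prod.ext (a2 _ h3.1) (a2' _ h3.2)
  · rintro r ⟨x, y⟩ ⟨x', y'⟩ h
    have h3 := Prod.mk.inj h
    exact Prod.ext (b1 _ h3.1) (b1' _ h3.2)
  · rintro c ⟨x, y⟩ ⟨x', y'⟩ h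
    have h3 := Prod.mk.inj h
    exact Prod.ext (b2 _ h3.1) (b2' _ h3.2)
  · rintro ⟨⟨x, y⟩, ⟨z, w⟩⟩ ⟨⟨x', y'⟩, ⟨z', w'⟩⟩ h
    simp only [prodSq, Prod.mk.injEq] at h
    have h3 := @ho (x, z) (x', z') (Prod.ext h.1.1 h.2.1)
    have h4 := @ho' (y, w) (y', w') (Prod.ext h.1.2 h.2.2)
    simp only [Prod.mk.injEq] at h3 h4
    rw [h3.1, h3.2, h4.1, h4.2]
  · intro r c
    rw [cset_prod, c1, c1']
  · intro r c
    rw [cset_prod, c2, c2']

end prod

/-! ### The count two: a pair of order eight based on the quaternion group -/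

/-- Cayley table of the quaternion group. -/
def Q₁ : Fin 8 → Fin 8 → Fin 8 :=
  ![![0, 1, 2, 3, 4, 5, 6, 7], ![1, 2, 3, 0, 5, 6, 7, 4], ![2, 3, 0, 1, 6, 7, 4, 5], ![3, 0, 1, 2, 7, 4, 5, 6], ![4, 7, 6, 5, 2, 1, 0, 3], ![5, 4, 7, 6, 3, 2, 1, 0], ![6, 5, 4, 7, 0, 3, 2, 1], ![7, 6, 5, 4, 1, 0, 3, 2]]

/-- An orthogonal mate of `Q₁` which is isotopic to it. -/
def Q₂ : Fin 8 → Fin 8 → Fin 8 :=
  ![![0, 1, 2, 3, 4, 5, 6, 7], ![2, 3, 0, 1, 6, 7, 4, 5], ![4, 7, 6, 5, 2, 1, 0, 3], ![6, 5, 4, 7, 0, 3, 2, 1], ![1, 2, 3, 0, 5, 6, 7, 4], ![7, 6, 5, 4, 1, 0, 3, 2], ![5, 4, 7, 6, 3, 2, 1, 0], ![3, 0, 1, 2, 7, 4, 5, 6]]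

theorem good_two : Good (Fin 8) 2 := by
  refine ⟨Q₁, Q₂, ⟨?_, ?_⟩, ⟨?_, ?_⟩, ?_, ?_, ?_⟩
  · unfold Function.Injective; decide +kernel
  · unfold Function.Injective; decide +kernel
  · unfold Function.Injective; decide +kernel
  · unfold Function.Injective; decide +kernel
  · have h : ∀ x y x' y' : Fin 8, Q₁ x y = Q₁ x' y' → Q₂ x y = Q₂ x' y' → x = x' ∧ y = y' := by
      decide +kernel
    rintro ⟨x, y⟩ ⟨x', y'⟩ e
    simp only [Prod.mk.injEq] at e
    obtain ⟨e1, e2⟩ := h x y x' y' e.1 e.2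
    rw [e1, e2]
  · decide +kernel
  · decide +kernel

/-! ### Odd counts -/

section odd

/-- The index group. -/
abbrev V : Type := ZMod 2 × ZMod 2

variable (k : ℕ) [NeZero k] (w : ZMod k)

/-- The multipliers `1, w, -1, -w`. -/
def mu (i : V) : ZMod k := (if i.1 = 0 then 1 else -1) * (if i.2 = 0 then 1 else w)

/-- The square `((x, i), (y, j)) ↦ (x + a μ i y + φ j, i + T j)`. -/
def blk (a : ZMod k) (φ : V → ZMod k) (T : V ≃+ V) (p q : ZMod k × V) : ZMod k × V :=
  (p.1 + a * mu k w p.2 * q.1 + φ q.2, p.2 + T q.2)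

/-- The number of solutions `y'` belonging to the difference `d` of the row indices. -/
def term (a : ZMod k) (φ : V → ZMod k) (T : V ≃+ V) (i : V) (y : ZMod k) (j : V) (d : V) : Finset (ZMod k) :=
  Finset.univ.filter fun y' =>
    a * (mu k w i + mu k w (i + d)) * y' + 2 * φ (j + T.symm d) = a * (mu k w i + mu k w (i + d)) * y + 2 * φ j

theorem v_add_self (v : V) : v + v = 0 := by
  revert v; decide

theorem blk_count (a : ZMod k) (φ : V → ZMod k) (T : V ≃+ V) (x : ZMod k) (i : V) (y : ZMod k) (j : V) :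
    (cset (blk k w a φ T) (x, i) (y, j)).card = ∑ d : V, (term k w a φ T i y j d).card := by
  classical
  rw [← Finset.card_sigma]
  have aux : ∀ (i' j' : V), i + T j = i' + T j' → j' = j + T.symm (i + i') := by
    intro i' j' h
    have h1 : i + i' = T (j + j') := by
      rw [map_add]
      have h2 : i + i' = (i + T j) + (i' + T j) := by
        have : (i + T j) + (i' + T j) = (i + i') + (T j + T j) := by abel
        rw [this, v_add_self, add_zero]
      rw [h2, h]
      have : i' + T j' + (i' + T j) = (i' + i') + (T j + T j') := by abel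
      rw [this, v_add_self, zero_add]
    rw [h1, AddEquiv.symm_apply_apply, ← add_assoc, v_add_self, zero_add]
  apply Finset.card_bij' (fun p _ => (⟨i + p.1.2, p.2.1⟩ : Σ _ : V, ZMod k))
    (fun q _ => ((x + a * mu k w i * q.2 + φ (j + T.symm q.1) - a * mu k w (i + q.1) * y - φ j, i + q.1),
      (q.2, j + T.symm q.1)))
  · rintro ⟨⟨x', i'⟩, ⟨y', j'⟩⟩ hp
    rw [mem_cset] at hp
    unfold blk at hp
    simp only [Prod.mk.injEq] at hp
    obtain ⟨⟨h1, h2⟩, h3, h4⟩ := hp
    have hj := aux i' j' h2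
    have hi : i + (i + i') = i' := by rw [← add_assoc, v_add_self, zero_add]
    rw [Finset.mem_sigma]
    refine ⟨Finset.mem_univ _, ?_⟩
    unfold term
    rw [Finset.mem_filter]
    refine ⟨Finset.mem_univ _, ?_⟩
    dsimp only
    rw [hi, ← hj]
    linear_combination h3 - h1
  · rintro ⟨d, y'⟩ hq
    rw [Finset.mem_sigma] at hq
    obtain ⟨_, h⟩ := hq
    unfold term at h
    rw [Finset.mem_filter] at h
    have h := h.2
    dsimp only at h
    rw [mem_cset]
    unfold blk
    simp only [Prod.mk.injEq]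
    refine ⟨⟨?_, ?_⟩, ?_, ?_⟩
    · linear_combination -h
    · rw [map_add, AddEquiv.apply_symm_apply]
      have : i + d + (T j + d) = i + T j + (d + d) := by abel
      rw [this, v_add_self, add_zero]
    · ring
    · rw [map_add, AddEquiv.apply_symm_apply]
      abel
  · rintro ⟨⟨x', i'⟩, ⟨y', j'⟩⟩ hp
    rw [mem_cset] at hp
    unfold blk at hp
    simp only [Prod.mk.injEq] at hp
    obtain ⟨⟨h1, h2⟩, h3, h4⟩ := hp
    have hj := aux i' j' h2
    have hi : i + (i + i') = i' := by rw [← add_assoc, v_add_self, zero_add]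
    dsimp only
    rw [hi, ← hj]
    have : x + a * mu k w i * y' + φ j' - a * mu k w i' * y - φ j = x' := by
      linear_combination h3
    rw [this]
  · rintro ⟨d, y'⟩ hq
    have hi : i + (i + d) = d := by rw [← add_assoc, v_add_self, zero_add]
    dsimp only
    rw [hi]

theorem card_unit (u s v : ZMod k) (hu : IsUnit u) :
    (Finset.univ.filter fun y' : ZMod k => u * y' + s = v).card = 1 := by
  have hb : Function.Bijective fun y' : ZMod k => u * y' + s := by
    apply Finite.injective_iff_bijective.1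
    intro y y' h
    exact hu.mul_left_cancel (add_right_cancel h)
  obtain ⟨y0, hy0⟩ := hb.2 v
  rw [Finset.card_eq_one]
  refine ⟨y0, ?_⟩
  ext y'
  rw [Finset.mem_filter, Finset.mem_singleton]
  constructor
  · intro h; exact hb.1 (h.2.trans hy0.symm)
  · rintro rfl; exact ⟨Finset.mem_univ _, hy0⟩

/-- All cells of the square `blk` have count `g + 2`. -/
theorem blk_const (h2 : IsUnit (2 : ZMod k)) (h20 : (2 : ZMod k) ≠ 0) (hw : IsUnit w) (hw1 : IsUnit (1 - w)) (g : ℕ)
    (hg : ∀ b : ZMod k, IsUnit b → ∀ y : ZMod k,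
      (Finset.univ.filter fun y' : ZMod k => b * (1 + w) * y' = b * (1 + w) * y).card = g)
    (a : ZMod k) (ha : IsUnit a) (φ : V → ZMod k) (T : V ≃+ V)
    (hφ1 : ∀ j, φ (j + T.symm (1, 0)) - φ j = 1 ∨ φ (j + T.symm (1, 0)) - φ j = -1)
    (hφ2 : ∀ j, φ (j + T.symm (0, 1)) = φ j) (p q : ZMod k × V) :
    (cset (blk k w a φ T) p q).card = g + 2 := by
  classical
  obtain ⟨x, i⟩ := p
  obtain ⟨y, j⟩ := q
  rw [blk_count]
  have hu : (Finset.univ : Finset V) = {(0, 0), (1, 0), (0, 1), (1, 1)} := by decide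
  rw [hu, Finset.sum_insert (by decide), Finset.sum_insert (by decide), Finset.sum_pair (by decide)]
  have hz2 : ∀ t : ZMod 2, t = 0 ∨ t = 1 := by decide
  have e10 : (1 : ZMod 2) ≠ 0 := by decide
  have e11 : (1 : ZMod 2) + 1 = 0 := by decide
  -- signs
  let s : ZMod k := if i.1 = 0 then 1 else -1
  let v : ZMod k := if i.2 = 0 then 1 else w
  have hs : IsUnit s := by
    rcases hz2 i.1 with h | h
    · simp only [s, h, if_true]; exact isUnit_one
    · simp only [s, h, e10, if_false]; exact isUnit_one.neg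
  have hv : IsUnit v := by
    rcases hz2 i.2 with h | h
    · simp only [v, h, if_true]; exact isUnit_one
    · simp only [v, h, e10, if_false]; exact hw
  have m0 : mu k w i = s * v := rfl
  have m00 : mu k w (i + (0, 0)) = s * v := by
    rw [show i + ((0, 0) : V) = i from add_zero i]; rfl
  have m10 : mu k w (i + (1, 0)) = -(s * v) := by
    have h1 : (i + ((1, 0) : V)).1 = i.1 + 1 := rfl
    have h2 : (i + ((1, 0) : V)).2 = i.2 := add_zero _
    unfold mu
    rw [h1, h2]
    rcases hz2 i.1 with h | h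
    · simp only [s, v, h, zero_add, e10, if_false, if_true]; ring
    · simp only [s, v, h, e11, e10, if_false, if_true]; ring
  have m01 : mu k w i + mu k w (i + (0, 1)) = s * (1 + w) := by
    have h1 : (i + ((0, 1) : V)).1 = i.1 := add_zero _
    have h2 : (i + ((0, 1) : V)).2 = i.2 + 1 := rfl
    unfold mu
    rw [h1, h2]
    rcases hz2 i.2 with h | h
    · simp only [s, h, zero_add, e10, if_false, if_true]; ring
    · simp only [s, h, e11, e10, if_false, if_true]; ring
  have m11 : mu k w i + mu k w (i + (1, 1)) = s * (1 - w) ∨ mu k w i + mu k w (i + (1, 1)) = - (s * (1 - w)) := by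
    have h1 : (i + ((1, 1) : V)).1 = i.1 + 1 := rfl
    have h2 : (i + ((1, 1) : V)).2 = i.2 + 1 := rfl
    unfold mu
    rw [h1, h2]
    rcases hz2 i.1 with h | h <;> rcases hz2 i.2 with h' | h'
    · left; simp only [s, h, h', zero_add, e10, if_false, if_true]; ring
    · right; simp only [s, h, h', zero_add, e11, e10, if_false, if_true]; ring
    · left; simp only [s, h, h', zero_add, e11, e10, if_false, if_true]; ring
    · right; simp only [s, h, h', e11, e10, if_false, if_true]; ring
  have t00 : (term k w a φ T i y j (0, 0)).card = 1 := by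
    unfold term
    rw [m0, m00]
    exact card_unit k (a * (s * v + s * v)) _ _ (by
      have : a * (s * v + s * v) = 2 * (a * (s * v)) := by ring
      rw [this]
      exact h2.mul (ha.mul (hs.mul hv)))
  have t10 : (term k w a φ T i y j (1, 0)).card = 0 := by
    unfold term
    rw [m0, m10, Finset.card_eq_zero]
    ext y'
    rw [Finset.mem_filter]
    simp only [Finset.notMem_empty, iff_false]
    rintro ⟨_, h⟩
    have h3 : 2 * (φ (j + T.symm (1, 0)) - φ j) = 0 := by linear_combination h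
    rcases hφ1 j with h4 | h4
    · rw [h4, mul_one] at h3; exact h20 h3
    · rw [h4, mul_neg, mul_one, neg_eq_zero] at h3; exact h20 h3
  have t01 : (term k w a φ T i y j (0, 1)).card = g := by
    unfold term
    rw [m01, hφ2]
    rw [← hg (a * s) (ha.mul hs) y]
    congr 1
    ext y'
    rw [Finset.mem_filter, Finset.mem_filter]
    constructor
    · rintro ⟨_, h⟩
      refine ⟨Finset.mem_univ _, ?_⟩
      linear_combination h
    · rintro ⟨_, h⟩
      refine ⟨Finset.mem_univ _, ?_⟩
      linear_combination h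
  have t11 : (term k w a φ T i y j (1, 1)).card = 1 := by
    unfold term
    apply card_unit
    rcases m11 with h | h
    · rw [h]; exact ha.mul (hs.mul hw1)
    · rw [h]; exact ha.mul (hs.mul hw1).neg
  rw [t00, t10, t01, t11]
  ring

omit [NeZero k] in
theorem blk_inj1 (hw : IsUnit w) (a : ZMod k) (ha : IsUnit a) (φ : V → ZMod k) (T : V ≃+ V) (p : ZMod k × V) :
    Function.Injective (blk k w a φ T p) := by
  rintro ⟨y, j⟩ ⟨y', j'⟩ h
  unfold blk at h
  simp only [Prod.mk.injEq] at h
  obtain ⟨h1, h2⟩ := h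
  have hj : j = j' := T.injective (add_left_cancel h2)
  subst hj
  have hu : IsUnit (a * mu k w p.2) := by
    apply ha.mul
    unfold mu
    apply IsUnit.mul
    · split_ifs
      · exact isUnit_one
      · exact isUnit_one.neg
    · split_ifs
      · exact isUnit_one
      · exact hw
  have h3 : a * mu k w p.2 * y = a * mu k w p.2 * y' := by linear_combination h1
  rw [hu.mul_left_cancel h3]

omit [NeZero k] in
theorem blk_inj2 (a : ZMod k) (φ : V → ZMod k) (T : V ≃+ V) (q : ZMod k × V) :
    Function.Injective fun p => blk k w a φ T p q := by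
  rintro ⟨x, i⟩ ⟨x', i'⟩ h
  unfold blk at h
  simp only [Prod.mk.injEq] at h
  obtain ⟨h1, h2⟩ := h
  have hi : i = i' := add_right_cancel h2
  subst hi
  have h3 : x = x' := by linear_combination h1
  rw [h3]

/-- The automorphism `(j₁, j₂) ↦ (j₂, j₁ + j₂)` of the index group. -/
def rot : V ≃+ V where
  toFun j := (j.2, j.1 + j.2)
  invFun j := (j.1 + j.2, j.1)
  left_inv := by unfold Function.LeftInverse; decide
  right_inv := by unfold Function.RightInverse Function.LeftInverse; decide
  map_add' := by decide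

theorem good_odd (h2 : IsUnit (2 : ZMod k)) (h20 : (2 : ZMod k) ≠ 0) (hw : IsUnit w) (hw1 : IsUnit (1 - w)) (g : ℕ)
    (hg : ∀ b : ZMod k, IsUnit b → ∀ y : ZMod k,
      (Finset.univ.filter fun y' : ZMod k => b * (1 + w) * y' = b * (1 + w) * y).card = g) :
    Good (ZMod k × V) (g + 2) := by
  classical
  have e10 : (1 : ZMod 2) ≠ 0 := by decide
  have hz2 : ∀ t : ZMod 2, t = 0 ∨ t = 1 := by decide
  have e11 : (1 : ZMod 2) + 1 = 0 := by decide
  refine ⟨blk k w 1 (fun j => if j.1 = 0 then 0 else 1) (AddEquiv.refl V),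
    blk k w 2 (fun j => if j.2 = 0 then 0 else 1) rot,
    ⟨blk_inj1 k w hw 1 isUnit_one _ _, blk_inj2 k w _ _ _⟩, ⟨blk_inj1 k w hw 2 h2 _ _, blk_inj2 k w _ _ _⟩,
    ?_, ?_, ?_⟩
  · rintro ⟨⟨x, i⟩, ⟨y, j⟩⟩ ⟨⟨x', i'⟩, ⟨y', j'⟩⟩ h
    unfold blk at h
    simp only [Prod.mk.injEq, AddEquiv.refl_apply] at h
    obtain ⟨⟨h1, h3⟩, h4, h5⟩ := h
    have hV : ∀ i j i' j' : V, i + j = i' + j' → i + rot j = i' + rot j' → i = i' ∧ j = j' := by
      unfold rot; decide
    obtain ⟨rfl, rfl⟩ := hV i j i' j' h3 h5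
    have hu : IsUnit (mu k w i) := by
      unfold mu
      apply IsUnit.mul
      · split_ifs
        · exact isUnit_one
        · exact isUnit_one.neg
      · split_ifs
        · exact isUnit_one
        · exact hw
    have h6 : mu k w i * y = mu k w i * y' := by linear_combination h4 - h1
    have h7 := hu.mul_left_cancel h6
    subst h7
    have h8 : x = x' := by linear_combination h1
    rw [h8]
  · intro p q
    apply blk_const k w h2 h20 hw hw1 g hg 1 isUnit_one
    · intro j
      show (if (j + (1, 0)).1 = 0 then (0 : ZMod k) else 1) - (if j.1 = 0 then 0 else 1) = 1 ∨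
        (if (j + (1, 0)).1 = 0 then (0 : ZMod k) else 1) - (if j.1 = 0 then 0 else 1) = -1
      have h1 : (j + ((1, 0) : V)).1 = j.1 + 1 := rfl
      rw [h1]
      rcases hz2 j.1 with h | h
      · left; rw [h]; simp [e10]
      · right; rw [h, e11]; simp [e10]
    · intro j
      show (if (j + (0, 1)).1 = 0 then (0 : ZMod k) else 1) = (if j.1 = 0 then 0 else 1)
      have h1 : (j + ((0, 1) : V)).1 = j.1 := add_zero _
      rw [h1]
  · intro p q
    apply blk_const k w h2 h20 hw hw1 g hg 2 h2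
    · intro j
      have h0 : rot.symm (1, 0) = (1, 1) := by unfold rot; decide
      rw [h0]
      show (if (j + (1, 1)).2 = 0 then (0 : ZMod k) else 1) - (if j.2 = 0 then 0 else 1) = 1 ∨
        (if (j + (1, 1)).2 = 0 then (0 : ZMod k) else 1) - (if j.2 = 0 then 0 else 1) = -1
      have h1 : (j + ((1, 1) : V)).2 = j.2 + 1 := rfl
      rw [h1]
      rcases hz2 j.2 with h | h
      · left; rw [h]; simp [e10]
      · right; rw [h, e11]; simp [e10]
    · intro j
      have h0 : rot.symm (0, 1) = (1, 0) := by unfold rot; decide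
      rw [h0]
      show (if (j + (1, 0)).2 = 0 then (0 : ZMod k) else 1) = (if j.2 = 0 then 0 else 1)
      have h1 : (j + ((1, 0) : V)).2 = j.2 := add_zero _
      rw [h1]

end odd

/-- For every odd `m ≥ 3` there is an orthogonal pair with count `m`. -/
theorem exists_odd (m : ℕ) (hm : Odd m) (h3 : 3 ≤ m) :
    ∃ (α : Type) (_ : Fintype α) (_ : DecidableEq α) (_ : Nonempty α), Good α m := by
  rcases Nat.lt_or_ge m 5 with h5 | h5
  · -- `m = 3`
    have : m = 3 := by
      obtain ⟨t, rfl⟩ := hm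
      omega
    subst this
    refine ⟨ZMod 5 × V, inferInstance, inferInstance, inferInstance, ?_⟩
    refine good_odd 5 2 ?_ (by decide) ?_ ?_ 1 ?_
    · exact IsUnit.of_mul_eq_one 3 (by decide)
    · exact IsUnit.of_mul_eq_one 3 (by decide)
    · exact IsUnit.of_mul_eq_one 4 (by decide)
    · intro b hb y
      have h1 : IsUnit (b * (1 + 2) : ZMod 5) := hb.mul (IsUnit.of_mul_eq_one 2 (by decide))
      have h2 := card_unit 5 (b * (1 + 2)) 0 (b * (1 + 2) * y) h1
      simpa using h2
  · have hk1 : 1 < m - 2 := by omega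
    have : NeZero (m - 2) := ⟨by omega⟩
    have : Fact (1 < m - 2) := ⟨hk1⟩
    have hodd : Odd (m - 2) := by
      obtain ⟨t, rfl⟩ := hm
      exact ⟨t - 1, by omega⟩
    have hc : Nat.Coprime 2 (m - 2) := (Nat.coprime_two_left).2 hodd
    have u2 : IsUnit (2 : ZMod (m - 2)) := by
      have := (ZMod.isUnit_iff_coprime 2 (m - 2)).2 hc
      simpa using this
    have hg := good_odd (m - 2) (-1) u2 u2.ne_zero isUnit_one.neg (by
        have : (1 : ZMod (m - 2)) - -1 = 2 := by ring
        rw [this]; exact u2) (m - 2) (by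
        intro b _ y
        have : (Finset.univ.filter fun y' : ZMod (m - 2) => b * (1 + -1) * y' = b * (1 + -1) * y) =
            Finset.univ := by
          ext y'
          simp
        rw [this, Finset.card_univ, ZMod.card])
    have e : m - 2 + 2 = m := by omega
    rw [e] at hg
    exact ⟨ZMod (m - 2) × V, inferInstance, inferInstance, inferInstance, hg⟩

theorem exists_all : ∀ m : ℕ, 1 ≤ m →
    ∃ (α : Type) (_ : Fintype α) (_ : DecidableEq α) (_ : Nonempty α), Good α m := by
  intro m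
  induction m using Nat.strong_induction_on with
  | _ m ih =>
    intro hm
    rcases Nat.even_or_odd m with he | ho
    · obtain ⟨t, ht⟩ := he
      obtain ⟨α, i1, i2, i3, hα⟩ := ih t (by omega) (by omega)
      refine ⟨Fin 8 × α, inferInstance, inferInstance, inferInstance, ?_⟩
      have := good_prod good_two hα
      rwa [show 2 * t = m by omega] at this
    · rcases Nat.lt_or_ge m 3 with h3 | h3
      · have : m = 1 := by
          obtain ⟨t, rfl⟩ := ho
          omega
        subst this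
        refine ⟨Unit, inferInstance, inferInstance, inferInstance, fun _ _ => (), fun _ _ => (),
          ⟨fun _ _ _ _ => Subsingleton.elim _ _, fun _ _ _ _ => Subsingleton.elim _ _⟩,
          ⟨fun _ _ _ _ => Subsingleton.elim _ _, fun _ _ _ _ => Subsingleton.elim _ _⟩,
          fun _ _ _ => Subsingleton.elim _ _, fun _ _ => rfl, fun _ _ => rfl⟩
      · exact exists_odd m ho h3

/-- `H` is the set of all nonnegative integers: for every `h` there are two orthogonal latin squares of the same order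
which are both `h`-homogeneous. -/
theorem result : H = Set.univ := by
  ext h
  simp only [Set.mem_univ, iff_true]
  obtain ⟨α, i1, i2, i3, hα⟩ := exists_all (h + 1) (by omega)
  exact mem_H_of_good hα

end Pool.Agent.Results.MP_510a26_co.AllHomogeneities
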